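import Pool.Agent.Q157.LD.Stm
import Pool.Agent.H53R2.FinNil
import Pool.Agent.Helper111.EN.Resid

/-!
# Project LD, job LD-sep: finitely generated virtually nilpotent groups are virtually residually `p`
-/

set_option autoImplicit false

namespace Pool.Agent.Q53.LD.Sep

open Pool.Agent.Q157.LD

/-- a finitely generated nilpotent group is residually finite, uniformly for finitely many elements -/
theorem miss_finite (K : Type) [Group K] [Group.IsNilpotent K] [Group.FG K] (A : Finset K) (hA : (1 : K) ∉ A) :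
    ∃ N : Subgroup K, N.FiniteIndex ∧ ∀ x ∈ A, x ∉ N := by
  classical
  have h1 : ∀ x : K, ∃ N : Subgroup K, N.FiniteIndex ∧ (x ≠ 1 → x ∉ N) := by
    intro x
    by_cases hx : x = 1
    · exact ⟨⊤, inferInstance, fun h => absurd hx h⟩
    · obtain ⟨r, -, -, N, hN, hxN, hfin, -⟩ := Helper111.EN.resid (K := K) ∅ (fun p hp => absurd hp (Set.notMem_empty p)) 2
        Nat.prime_two (Set.notMem_empty 2) (fun p hp => absurd hp (Set.notMem_empty p)) x hx
      exact ⟨N, Subgroup.finiteIndex_of_finite_quotient, fun _ => hxN⟩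
  choose N hN1 hN2 using h1
  refine ⟨⨅ x : A, N x, ?_, ?_⟩
  · exact Subgroup.finiteIndex_iInf fun x => hN1 x
  · intro x hx hxN
    have h2 : x ∈ N x := (Subgroup.mem_iInf.1 hxN) ⟨x, hx⟩
    exact hN2 x (fun h => hA (h ▸ hx)) h2

/-- the torsion of the centre is finite -/
theorem center_tors (K : Type) [Group K] [Group.IsNilpotent K] [Group.FG K] :
    {x : K | x ∈ Subgroup.center K ∧ IsOfFinOrder x}.Finite := by
  set T : Subgroup K :=
    { carrier := {x : K | x ∈ Subgroup.center K ∧ IsOfFinOrder x}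
      one_mem' := ⟨Subgroup.one_mem _, IsOfFinOrder.one⟩
      mul_mem' := by
        rintro a b ⟨ha1, ha2⟩ ⟨hb1, hb2⟩
        exact ⟨Subgroup.mul_mem _ ha1 hb1,
          Commute.isOfFinOrder_mul ((Subgroup.mem_center_iff.1 hb1) a) ha2 hb2⟩
      inv_mem' := by
        rintro a ⟨ha1, ha2⟩
        exact ⟨Subgroup.inv_mem _ ha1, ha2.inv⟩ } with hT
  have hfg : T.FG := Pool.Agent.H53R2.nil_maxC K T
  have hfg' : Group.FG T := (Group.fg_iff_subgroup_fg T).2 hfg
  have hfin : Finite T := Helper111.EN.finite_of_fg_nilpotent T (by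
    rintro ⟨x, hx⟩
    have hx2 : IsOfFinOrder x := hx.2
    exact (Submonoid.isOfFinOrder_coe (H := T.toSubmonoid) (x := ⟨x, hx⟩)).1 hx2)
  exact Set.toFinite (T : Set K)

theorem virt_tf (K : Type) [Group K] [Group.IsNilpotent K] : Group.FG K →
    ∃ T : Subgroup K, T.FiniteIndex ∧ ∀ x ∈ T, IsOfFinOrder x → x = 1 := by
  refine Group.nilpotent_center_quotient_ind (P := fun G _ _ => Group.FG G →
    ∃ T : Subgroup G, T.FiniteIndex ∧ ∀ x ∈ T, IsOfFinOrder x → x = 1) K ?_ ?_
  · intro G _ _ _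
    exact ⟨⊤, inferInstance, fun x _ _ => Subsingleton.elim _ _⟩
  · intro G _ _ ih hG
    obtain ⟨T, hT1, hT2⟩ := ih (QuotientGroup.fg _)
    classical
    obtain ⟨N, hN1, hN2⟩ := miss_finite G ((center_tors G).toFinset.erase 1) (Finset.notMem_erase _ _)
    refine ⟨T.comap (QuotientGroup.mk' (Subgroup.center G)) ⊓ N, ?_, ?_⟩
    · have : (T.comap (QuotientGroup.mk' (Subgroup.center G))).FiniteIndex := by
        refine ⟨?_⟩
        rw [Subgroup.index_comap_of_surjective _ (QuotientGroup.mk'_surjective _)]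
        exact hT1.index_ne_zero
      infer_instance
    · rintro x ⟨hx1, hx2⟩ hx3
      by_contra hne
      have h1 : QuotientGroup.mk' (Subgroup.center G) x = 1 :=
        hT2 _ hx1 (MonoidHom.isOfFinOrder _ hx3)
      rw [QuotientGroup.mk'_apply, QuotientGroup.eq_one_iff] at h1
      refine hN2 x ?_ hx2
      rw [Finset.mem_erase, Set.Finite.mem_toFinset]
      exact ⟨hne, h1, hx3⟩

theorem sep : S_sep := by
  intro G _ _ hG
  obtain ⟨N, hN1, hN2⟩ := hG
  have hNfg : Group.FG N := Subgroup.fg_of_index_ne_zero N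
  obtain ⟨T, hT1, hT2⟩ := virt_tf N hNfg
  set S : Subgroup G := (T.map N.subtype).normalCore with hS
  have hmapfi : (T.map N.subtype).FiniteIndex := by
    refine ⟨?_⟩
    rw [Subgroup.index_map_subtype]
    exact mul_ne_zero hT1.index_ne_zero hN2.index_ne_zero
  have hSfi : S.FiniteIndex := inferInstance
  have hSN : S ≤ N := by
    refine (Subgroup.normalCore_le _).trans ?_
    rintro _ ⟨x, -, rfl⟩
    exact x.2
  have hSnil : Group.IsNilpotent S :=
    Subgroup.isNilpotent_of_ker_le_center (Subgroup.inclusion hSN) (by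
      rw [(MonoidHom.ker_eq_bot_iff _).2 (Subgroup.inclusion_injective hSN)]
      exact bot_le)
  have hSfg : Group.FG S := Subgroup.fg_of_index_ne_zero S
  have hStf : ∀ x ∈ S, IsOfFinOrder x → x = 1 := by
    intro x hx hx2
    obtain ⟨y, hy, rfl⟩ := Subgroup.normalCore_le _ hx
    have h1 : IsOfFinOrder y := (Submonoid.isOfFinOrder_coe (H := N.toSubmonoid) (x := y)).1 hx2
    rw [hT2 y hy h1]
    rfl
  refine ⟨S, inferInstance, hSfi, fun q hq w hw => ?_⟩
  by_cases hwS : w ∈ S
  · obtain ⟨r, hr, hrπ, N0, hN0, hwN0, hfin, hpg⟩ := Helper111.EN.resid (K := S) {p | p.Prime ∧ p ≠ q} (fun p hp => hp.1) q hq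
      (fun h => h.2 rfl) (fun p hp x hx => by
        have h1 : IsOfFinOrder (x : G) := isOfFinOrder_iff_pow_eq_one.2 ⟨p, hp.1.pos, by
          have := congrArg (fun y : S => (y : G)) hx
          simpa using this⟩
        have h2 := hStf x x.2 h1
        exact Subtype.ext h2) ⟨w, hwS⟩ (fun h => hw (congrArg (fun y : S => (y : G)) h))
    have hrq : r = q := by
      by_contra hne
      exact hrπ ⟨hr, hne⟩
    subst hrq
    have hfact : Fact r.Prime := ⟨hr⟩
    obtain ⟨j, hj⟩ := (IsPGroup.iff_card).1 hpg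
    have hpow : ∀ x : S, x ^ (r ^ j) ∈ N0 := by
      intro x
      rw [← QuotientGroup.eq_one_iff (N := N0), QuotientGroup.mk_pow, ← hj]
      exact pow_card_eq_one'
    have hfi : N0.FiniteIndex := Subgroup.finiteIndex_of_finite_quotient
    have hmfi : (N0.map S.subtype).FiniteIndex := by
      refine ⟨?_⟩
      rw [Subgroup.index_map_subtype]
      exact mul_ne_zero hfi.index_ne_zero hSfi.index_ne_zero
    refine ⟨(N0.map S.subtype).normalCore, inferInstance, inferInstance, ?_, j, ?_⟩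
    · intro hw2
      obtain ⟨y, hy, hyw⟩ := Subgroup.normalCore_le _ hw2
      have h1 : y = ⟨w, hwS⟩ := Subtype.ext hyw
      rw [h1] at hy
      exact hwN0 hy
    · intro x hx g
      have h1 : g * x * g⁻¹ ∈ S := (inferInstance : S.Normal).conj_mem x hx g
      refine ⟨⟨g * x * g⁻¹, h1⟩ ^ (r ^ j), hpow _, ?_⟩
      change (g * x * g⁻¹) ^ (r ^ j) = g * x ^ (r ^ j) * g⁻¹
      exact conj_pow
  · exact ⟨S, inferInstance, hSfi, hwS, 0, fun x hx => by rw [pow_zero, pow_one]; exact hx⟩

end Pool.Agent.Q53.LD.Sep
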